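import Pool.Agent.H98.LBA.Main

/-!
# Large complete bipartite subgraphs `K(r, s)` in graphs with `⌊n²/4⌋` edges

`A(n) ≥ 1 + r 2^r / n - o(1)` whenever `r 2^r < n`.  With the largest such `r` one has
`n ≤ (r+1) 2^(r+1)`, so `liminf A(n) ≥ 3/2`.
-/

namespace Pool.Agent.Results.MP_58acf5_co.LowerBound

/-- For every `ε > 0` and all large `n`: `A(n) ≥ 1 + r 2^r / n - ε` for every `r` with
`r 2^r < n`. -/
theorem result : ∀ ε : ℝ, 0 < ε → ∃ N : ℕ, ∀ n : ℕ, N ≤ n → ∀ r : ℕ, r * 2 ^ r < n →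
    1 + (r * 2 ^ r : ℝ) / n - ε ≤ A n :=
  main

end Pool.Agent.Results.MP_58acf5_co.LowerBound
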